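import Pool.Agent.KS6_84.Lp.Step

/-!
# The lower bound `E τ ≥ (n³ / 88) log (|V| / ε)`
-/

set_option autoImplicit false

open scoped ENNReal BigOperators

namespace KS6_84.Lp

open R984.LpRelax

lemma rate {n : ℕ} (hn : 2 ≤ n) {κ : ℝ} (hκ0 : 0 ≤ κ) (hκ : κ ≤ 1 / ((n : ℝ) + 1) ^ 2) :
    0 ≤ (2 + κ) / (2 * cs n) - 1 ∧ (2 + κ) / (2 * cs n) - 1 ≤ 11 / (n : ℝ) ^ 2 := by
  have h1 := cs_ge hn
  have h2 := cs_ge' n
  have h3 : cs n ≤ 1 := Real.cos_le_one _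
  have hc : 0 < 2 * cs n := by linarith
  have hn0 : (0 : ℝ) < n := by exact_mod_cast (by omega : 0 < n)
  have e : (2 + κ) / (2 * cs n) - 1 = (κ + 2 * (1 - cs n)) / (2 * cs n) := by
    rw [div_sub_one hc.ne']
    congr 1
    ring
  rw [e]
  refine ⟨div_nonneg (by linarith) hc.le, ?_⟩
  have h4 : κ + 2 * (1 - cs n) ≤ 11 / ((n : ℝ) + 1) ^ 2 := by
    have : 11 / ((n : ℝ) + 1) ^ 2 = 1 / ((n : ℝ) + 1) ^ 2 + 2 * (5 / ((n : ℝ) + 1) ^ 2) := by ring
    linarith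
  have h5 : 11 / ((n : ℝ) + 1) ^ 2 ≤ 11 / (n : ℝ) ^ 2 := by
    gcongr
    linarith
  rw [div_le_iff₀ hc]
  have h6 : 0 ≤ 11 / (n : ℝ) ^ 2 := by positivity
  nlinarith

lemma uu_f0 {n : ℕ} {δ : ℝ} {i : ℕ} (hi : i < n) : uu n (f0 n δ) (i + 1) = δ := by
  classical
  have : X n (i + 1) ∈ Int n := mem_Int.mpr ⟨i, hi, rfl⟩
  simp only [uu, f0, this, if_true]
  ring

lemma f0_KK (n : ℕ) {δ : ℝ} (hδ : 0 < δ) : KK n δ (f0 n δ) :=
  ⟨f0_inClass n hδ.le, fun i hi => by rw [uu_f0 hi]; exact hδ⟩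

/-- `∑ s_i³` -/
noncomputable def S3 (n : ℕ) : ℝ := ∑ i ∈ Finset.range n, sn n (i + 1) ^ 3

lemma S3_pos {n : ℕ} (hn : 1 ≤ n) : 0 < S3 n := by
  unfold S3
  apply Finset.sum_pos
  · intro i hi
    have := sn_pos (Finset.mem_range.mp hi)
    positivity
  · exact Finset.nonempty_range_iff.mpr (by omega)

lemma YR_f0 (n : ℕ) (δ : ℝ) : YR n (f0 n δ) = S3 n / δ := by
  unfold YR S3
  rw [Finset.sum_div]
  refine Finset.sum_congr rfl (fun i hi => ?_)
  rw [uu_f0 (Finset.mem_range.mp hi)]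

lemma YR_ge {n : ℕ} {M ε : ℝ} {f : Vx n → ℝ} (h : KK n M f)
    (hc : ∀ v, |f v - hf n v| ≤ ε) : S3 n / ε ≤ YR n f := by
  unfold YR S3
  rw [Finset.sum_div]
  refine Finset.sum_le_sum (fun i hi => ?_)
  have hi' := Finset.mem_range.mp hi
  have h1 := h.2 i hi'
  have h2 : uu n f (i + 1) ≤ ε := (le_abs_self _).trans (hc _)
  have h3 := sn_pos hi'
  gcongr

lemma YR_nonneg {n : ℕ} {M : ℝ} {f : Vx n → ℝ} (h : KK n M f) : 0 ≤ YR n f := by
  unfold YR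
  refine Finset.sum_nonneg (fun i hi => ?_)
  have hi' := Finset.mem_range.mp hi
  have h1 := h.2 i hi'
  have h3 := sn_pos hi'
  positivity

open Classical in
/-- Most update sequences of length `T ≤ (n³/11) log (δ/(2ε))` do not come `ε`-close to `h`. -/
lemma many_bad (n : ℕ) (hn : 2 ≤ n) {p : ℝ} (hp : 2 < p) (δ : ℝ) (hδ : 0 < δ)
    (hMs : δ * (2 * (n + 1)) ≤ 1) (hκ : (2 * ((n : ℝ) + 1) * δ) ^ (p - 2) ≤ 1 / ((n : ℝ) + 1) ^ 2)
    {ε : ℝ} (hε : 0 < ε) (T : ℕ) (hT : (11 : ℝ) * T ≤ (n : ℝ) ^ 3 * Real.log (δ / (2 * ε))) :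
    ((Int n).card : ℝ) ^ T ≤ 4 * ((Finset.univ.filter (fun a : Fin T → Int n =>
      ¬ ∀ v, |state (Gr n) p (f0 n δ) T (fun i => a i) v - hf n v| ≤ ε)).card : ℝ) := by
  have hκ0 : 0 ≤ (2 * ((n : ℝ) + 1) * δ) ^ (p - 2) := by positivity
  obtain ⟨hr0, hr⟩ := rate hn hκ0 hκ
  obtain ⟨r, hrdef⟩ : ∃ r : ℝ, r = (2 + (2 * ((n : ℝ) + 1) * δ) ^ (p - 2)) / (2 * cs n) - 1 :=
    ⟨_, rfl⟩
  rw [← hrdef] at hr0 hr
  have hnpos : (0:ℝ) < n := by exact_mod_cast (by omega : 0 < n)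
  obtain ⟨hK, hY⟩ := sum_state_le (Gr n) p (Int n) (KK n δ) (YR n) ((n : ℝ) + r) (by positivity)
    (f0 n δ) (f0_KK n hδ) (fun f hf' v hv => KK_relax hn hp hδ hMs f hf' v hv)
    (fun f hf' => by rw [hrdef]; exact drift n hn hp δ hδ hMs f hf') T
  rw [card_Int]
  set S := (Finset.univ.filter (fun a : Fin T → Int n =>
      ¬ ∀ v, |state (Gr n) p (f0 n δ) T (fun i => a i) v - hf n v| ≤ ε)) with hS
  set S' := (Finset.univ.filter (fun a : Fin T → Int n =>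
      ∀ v, |state (Gr n) p (f0 n δ) T (fun i => a i) v - hf n v| ≤ ε)) with hS'
  have hcard : (S'.card : ℝ) + S.card = (n : ℝ) ^ T := by
    have h1 := Finset.card_filter_add_card_filter_not (s := (Finset.univ : Finset (Fin T → Int n)))
      (fun a : Fin T → Int n =>
      ∀ v, |state (Gr n) p (f0 n δ) T (fun i => a i) v - hf n v| ≤ ε)
    rw [← hS, ← hS'] at h1
    have h2 : (Finset.univ : Finset (Fin T → Int n)).card = n ^ T := by
      simp [card_Int]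
    rw [h2] at h1
    exact_mod_cast h1
  have hS3 : 0 < S3 n := S3_pos (by omega)
  have h1 : (S'.card : ℝ) * (S3 n / ε) ≤
      ∑ a : Fin T → Int n, YR n (state (Gr n) p (f0 n δ) T (fun i => a i)) := by
    calc (S'.card : ℝ) * (S3 n / ε) = ∑ _a ∈ S', S3 n / ε := by
          rw [Finset.sum_const, nsmul_eq_mul]
      _ ≤ ∑ a ∈ S', YR n (state (Gr n) p (f0 n δ) T (fun i => a i)) := by
          refine Finset.sum_le_sum (fun a ha => ?_)
          rw [hS', Finset.mem_filter] at ha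
          exact YR_ge (hK a) ha.2
      _ ≤ _ := Finset.sum_le_sum_of_subset_of_nonneg (Finset.subset_univ _)
          (fun a _ _ => YR_nonneg (hK a))
  rw [YR_f0] at hY
  have h2 : (S'.card : ℝ) * (S3 n / ε) ≤ ((n : ℝ) + r) ^ T * (S3 n / δ) := h1.trans hY
  have h3 : (S'.card : ℝ) ≤ (ε / δ) * ((n : ℝ) + r) ^ T := by
    have h4 : (S'.card : ℝ) * (S3 n / ε) = ((S'.card : ℝ) / ε) * S3 n := by ring
    have h5 : ((n : ℝ) + r) ^ T * (S3 n / δ) = (((n : ℝ) + r) ^ T / δ) * S3 n := by ring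
    rw [h4, h5] at h2
    have h6 := le_of_mul_le_mul_right h2 hS3
    rw [div_le_iff₀ hε] at h6
    calc (S'.card : ℝ) ≤ ((n : ℝ) + r) ^ T / δ * ε := h6
      _ = (ε / δ) * ((n : ℝ) + r) ^ T := by ring
  have h4 : ((n : ℝ) + r) ^ T ≤ (n : ℝ) ^ T * (δ / (2 * ε)) := by
    have h5 : (n : ℝ) + r ≤ n * Real.exp (11 / (n : ℝ) ^ 3) := by
      have h6 := Real.add_one_le_exp (11 / (n : ℝ) ^ 3)
      have h7 : (n : ℝ) * (11 / (n : ℝ) ^ 3 + 1) ≤ n * Real.exp (11 / (n : ℝ) ^ 3) :=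
        mul_le_mul_of_nonneg_left h6 hnpos.le
      have h8 : (n : ℝ) * (11 / (n : ℝ) ^ 3 + 1) = n + 11 / (n : ℝ) ^ 2 := by
        field_simp
        ring
      linarith
    calc ((n : ℝ) + r) ^ T ≤ (n * Real.exp (11 / (n : ℝ) ^ 3)) ^ T :=
          pow_le_pow_left₀ (by positivity) h5 T
      _ = (n : ℝ) ^ T * Real.exp (T * (11 / (n : ℝ) ^ 3)) := by
          rw [mul_pow, ← Real.exp_nat_mul]
      _ ≤ (n : ℝ) ^ T * (δ / (2 * ε)) := by
          gcongr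
          have h9 : (T : ℝ) * (11 / (n : ℝ) ^ 3) ≤ Real.log (δ / (2 * ε)) := by
            rw [← mul_div_assoc, div_le_iff₀ (by positivity)]
            linarith
          calc Real.exp ((T : ℝ) * (11 / (n : ℝ) ^ 3)) ≤ Real.exp (Real.log (δ / (2 * ε))) :=
                Real.exp_le_exp.mpr h9
            _ = δ / (2 * ε) := Real.exp_log (by positivity)
  have h5 : (S'.card : ℝ) ≤ (n : ℝ) ^ T / 2 := by
    calc (S'.card : ℝ) ≤ (ε / δ) * ((n : ℝ) + r) ^ T := h3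
      _ ≤ (ε / δ) * ((n : ℝ) ^ T * (δ / (2 * ε))) := by gcongr
      _ = (n : ℝ) ^ T / 2 := by field_simp
  have h6 : 0 ≤ (n : ℝ) ^ T := by positivity
  linarith

/-- Lower bound for `E τ` for every `ε ≤ δ / 2`. -/
theorem expTau_lower (n : ℕ) (hn : 2 ≤ n) [Nonempty (Int n)] {p : ℝ} (hp : 2 < p) (δ : ℝ)
    (hδ : 0 < δ) (hMs : δ * (2 * (n + 1)) ≤ 1)
    (hκ : (2 * ((n : ℝ) + 1) * δ) ^ (p - 2) ≤ 1 / ((n : ℝ) + 1) ^ 2)
    {ε : ℝ} (hε : 0 < ε) (hεδ : 2 * ε ≤ δ) :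
    ENNReal.ofReal ((n : ℝ) ^ 3 * Real.log (δ / (2 * ε)) / 44) ≤
      expTau (Gr n) p (Int n) (f0 n δ) (hf n) ε := by
  have hL : 0 ≤ Real.log (δ / (2 * ε)) := by
    apply Real.log_nonneg
    rw [le_div_iff₀ (by positivity)]
    linarith
  set T : ℕ := ⌊(n : ℝ) ^ 3 * Real.log (δ / (2 * ε)) / 11⌋₊ with hT
  have hT1 : (T : ℝ) ≤ (n : ℝ) ^ 3 * Real.log (δ / (2 * ε)) / 11 := Nat.floor_le (by positivity)
  have hT2 : (n : ℝ) ^ 3 * Real.log (δ / (2 * ε)) / 11 < T + 1 := Nat.lt_floor_add_one _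
  have hbad := many_bad n hn hp δ hδ hMs hκ hε T (by linarith)
  have hlow := expTau_ge (Gr n) p (Int n) (f0 n δ) (hf n) ε (KK n δ) (f0_KK n hδ)
    (fun f hf' v hv => KK_relax hn hp hδ hMs f hf' v hv)
    (by
      intro f hf' hcl v hv w
      have hcl' : InClass n ε f :=
        ⟨fun v => ⟨(hf'.1.1 v).1, (le_abs_self _).trans (hcl v)⟩, hf'.1.2⟩
      have := (inClass_relax n hp ε hε.le f hcl' v hv).1 w
      rw [abs_of_nonneg this.1]
      exact this.2) T hbad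
  refine le_trans (ENNReal.ofReal_le_ofReal ?_) hlow
  linarith

/-- The bound asked for in Q1, with constant `C`. -/
def DiamBound (p C : ℝ) : Prop :=
  ∀ (V : Type) [Fintype V] (G : SimpleGraph V) (I : Finset V) [Nonempty I]
    (f₀ h : V → ℝ) (ε : ℝ), G.Connected → (∃ v, v ∉ I) → (∀ v, 0 ≤ f₀ v ∧ f₀ v ≤ 1) →
    IsPHarmonicExt G p I f₀ h → 0 < ε → ε ≤ 1 / 2 →
    expTau G p I f₀ h ε ≤ ENNReal.ofReal
      (C * (I.card * G.edgeSet.ncard * G.diam * Real.log (Fintype.card V / ε)))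

/-- The main construction, with explicit parameters. -/
theorem construction (p : ℝ) (hp : 2 < p) (n : ℕ) (hn : 2 ≤ n) :
    ∃ (_ : Nonempty (Int n)) (f₀ h : Vx n → ℝ),
      (∃ v, v ∉ Int n) ∧ (∀ v, 0 ≤ f₀ v ∧ f₀ v ≤ 1) ∧ IsPHarmonicExt (Gr n) p (Int n) f₀ h ∧
      ∀ ε : ℝ, 0 < ε → ε ≤ ((n : ℝ) + 1) ^ (-(7 + 4 / (p - 2))) →
        ε ≤ 1 / 2 ∧ 0 < Real.log (Fintype.card (Vx n) / ε) ∧
        ENNReal.ofReal ((n : ℝ) ^ 3 / 88 * Real.log (Fintype.card (Vx n) / ε)) ≤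
          expTau (Gr n) p (Int n) f₀ h ε := by
  have hn2 : (2:ℝ) ≤ n := by exact_mod_cast hn
  have hnpos : (0:ℝ) < n := by linarith
  have hp2 : 0 < p - 2 := by linarith
  set m : ℝ := (n : ℝ) + 1 with hm
  have hm3 : 3 ≤ m := by linarith
  have hm0 : 0 < m := by linarith
  set q : ℝ := 2 / (p - 2) with hq
  have hq0 : 0 < q := by positivity
  set δ : ℝ := 1 / (2 * m) * m ^ (-q) with hδ
  have hmq : 0 < m ^ (-q) := Real.rpow_pos_of_pos hm0 _
  have hmq1 : m ^ (-q) ≤ 1 := Real.rpow_le_one_of_one_le_of_nonpos (by linarith) (by linarith)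
  have hδpos : 0 < δ := by positivity
  have hδ1 : δ * (2 * m) = m ^ (-q) := by rw [hδ]; field_simp
  have hδle : δ * (2 * m) ≤ 1 := by rw [hδ1]; exact hmq1
  have hκ : (2 * m * δ) ^ (p - 2) ≤ 1 / m ^ 2 := by
    have : 2 * m * δ = m ^ (-q) := by rw [← hδ1]; ring
    rw [this, ← Real.rpow_mul hm0.le]
    have e : -q * (p - 2) = -(2:ℕ) := by rw [hq]; field_simp; norm_num
    rw [e, Real.rpow_neg hm0.le, Real.rpow_natCast, one_div]
  have hne : Nonempty (Int n) := by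
    have : (Int n).Nonempty := by rw [← Finset.card_pos, card_Int]; omega
    exact this.coe_sort
  refine ⟨hne, f0 n δ, hf n, ⟨X n 0, X_not_mem (Or.inl rfl)⟩, ?_,
    hf_isPHarmonicExt n (by linarith) δ, ?_⟩
  · intro v
    have hhf0 : ∀ v, 0 ≤ hf n v := by
      intro v
      rcases v with _ | ⟨i, b⟩
      · simp [hf]
      · simp only [hf]; positivity
    have hhf1 : ∀ v, hf n v ≤ 1 := by
      intro v
      rcases v with _ | ⟨i, b⟩
      · simp [hf]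
      · simp only [hf]
        rw [div_le_one (by positivity)]
        have := i.2
        have : (i.val : ℝ) ≤ n + 1 := by exact_mod_cast (by omega : i.val ≤ n + 1)
        exact this
    classical
    by_cases hv : v ∈ Int n
    · obtain ⟨i, hi, rfl⟩ := mem_Int.mp hv
      have e : f0 n δ (X n (i + 1)) = hf n (X n (i + 1)) + δ := by simp [f0, hv]
      rw [e]
      refine ⟨by have := hhf0 (X n (i + 1)); linarith, ?_⟩
      rw [hf_X _ _ (by omega)]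
      have h1 : (((i + 1 : ℕ) : ℝ)) ≤ n := by exact_mod_cast hi
      have h2 : ((i + 1 : ℕ) : ℝ) / (n + 1) ≤ (n : ℝ) / (n + 1) := by gcongr
      have h3 : (n : ℝ) / (n + 1) = 1 - 1 / m := by rw [hm]; field_simp; ring
      have h4 : δ ≤ 1 / m := by
        rw [le_div_iff₀ hm0]
        nlinarith
      linarith
    · have e : f0 n δ v = hf n v := by simp [f0, hv]
      rw [e]
      exact ⟨hhf0 v, hhf1 v⟩
  · intro ε hε hεle
    -- `ε ≤ δ² / (4 (2n+5))`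
    have hK : m ^ (-(7 + 4 / (p - 2))) = m ^ (-(7:ℝ)) * (m ^ (-q)) ^ 2 := by
      rw [← Real.rpow_natCast (m ^ (-q)) 2, ← Real.rpow_mul hm0.le, ← Real.rpow_add hm0]
      congr 1
      rw [hq]
      push_cast
      ring
    have hm7 : m ^ (-(7:ℝ)) = 1 / m ^ 7 := by
      rw [Real.rpow_neg hm0.le, one_div]
      congr 1
      exact_mod_cast Real.rpow_natCast m 7
    rw [hK, hm7] at hεle
    have hcv : ((Fintype.card (Vx n) : ℕ) : ℝ) = 2 * m + 3 := by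
      rw [card_Vx, hm]; push_cast; ring
    have hε0 : ε * (4 * (2 * m + 3)) ≤ δ ^ 2 := by
      have h1 : δ ^ 2 = (m ^ (-q)) ^ 2 / (4 * m ^ 2) := by
        rw [hδ]; field_simp; ring
      have h2 : (4 * (2 * m + 3)) * (4 * m ^ 2) ≤ m ^ 7 := by
        have h3 : 2 * m + 3 ≤ 3 * m := by linarith
        have h4 : (81 : ℝ) ≤ m ^ 4 := by
          have : (9 : ℝ) ≤ m ^ 2 := by nlinarith
          nlinarith
        have h5 : (4 * (2 * m + 3)) * (4 * m ^ 2) ≤ 48 * m ^ 3 := by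
          have : (0 : ℝ) ≤ m ^ 2 := by positivity
          nlinarith
        have h6 : m ^ 7 = m ^ 4 * m ^ 3 := by ring
        have h7 : (0 : ℝ) ≤ m ^ 3 := by positivity
        nlinarith
      have hsq : 0 ≤ (m ^ (-q)) ^ 2 := by positivity
      calc ε * (4 * (2 * m + 3)) ≤ (1 / m ^ 7 * (m ^ (-q)) ^ 2) * (4 * (2 * m + 3)) := by gcongr
        _ = (m ^ (-q)) ^ 2 * (4 * (2 * m + 3)) / m ^ 7 := by ring
        _ ≤ (m ^ (-q)) ^ 2 / (4 * m ^ 2) := by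
            rw [div_le_div_iff₀ (by positivity) (by positivity)]
            have := mul_le_mul_of_nonneg_left h2 hsq
            linarith
        _ = δ ^ 2 := h1.symm
    have hδ6 : δ ≤ 1 / 6 := by nlinarith
    have hεδ : 2 * ε ≤ δ := by
      have h1 : δ ^ 2 ≤ δ := by nlinarith
      nlinarith
    have hε2 : ε ≤ 1 / 2 := by linarith
    have hlogpos : 0 < Real.log ((Fintype.card (Vx n) : ℕ) / ε) := by
      rw [hcv]
      apply Real.log_pos
      rw [lt_div_iff₀ hε]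
      linarith
    refine ⟨hε2, hlogpos, ?_⟩
    refine le_trans (ENNReal.ofReal_le_ofReal ?_)
      (expTau_lower n hn hp δ hδpos (by rw [← hm]; exact hδle) (by rw [← hm]; exact hκ) hε hεδ)
    rw [hcv]
    have h1 : Real.log ((2 * m + 3) / ε) ≤ 2 * Real.log (δ / (2 * ε)) := by
      rw [← Real.log_rpow (by positivity)]
      apply Real.log_le_log (by positivity)
      have h2 : (δ / (2 * ε)) ^ (2:ℝ) = δ ^ 2 / (4 * ε ^ 2) := by
        have : (δ / (2 * ε)) ^ (2:ℝ) = (δ / (2 * ε)) ^ 2 := by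
          exact_mod_cast Real.rpow_natCast (δ / (2 * ε)) 2
        rw [this, div_pow]
        ring
      rw [h2, div_le_div_iff₀ hε (by positivity)]
      have := mul_le_mul_of_nonneg_right hε0 hε.le
      nlinarith
    have h3 : 0 ≤ (n : ℝ) ^ 3 := by positivity
    nlinarith [mul_le_mul_of_nonneg_left h1 h3]

end KS6_84.Lp
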