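import Pool.Graph.R_seed8.R984.LpRelaxMain

/-!
# A reciprocal supermartingale for the relaxation near `h`
-/

set_option autoImplicit false

open scoped ENNReal BigOperators

namespace KS6_84.Lp

open R984.LpRelax

/-- Multiplicative lower bound for one relaxation step. -/
lemma relax_mul (n : ℕ) {p : ℝ} (hp : 2 < p) (M : ℝ) (hM : 0 < M) (f : Vx n → ℝ)
    (hf' : InClass n M f) (hMs : M * (2 * (n + 1)) ≤ 1) (i : ℕ) (hi : i < n) :
    uu n f i + uu n f (i + 2) ≤ (2 + (2 * ((n : ℝ) + 1) * M) ^ (p - 2)) *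
      (relax (Gr n) p f (X n (i + 1)) (X n (i + 1)) - hf n (X n (i + 1))) := by
  have hp1 : 1 < p := by linarith
  have hb := relax_bounds n hp M hM.le f hf' i hi
  have hstat := relax_stationary (Gr n) hp.le f (X n (i + 1))
  rw [sum_nbr n i hi (fun w => phi p (relax (Gr n) p f (X n (i + 1)) (X n (i + 1)) - f w))] at hstat
  set z := relax (Gr n) p f (X n (i + 1)) (X n (i + 1)) - hf n (X n (i + 1)) with hz
  obtain ⟨hcl, hoff⟩ := hf'
  have hB : f (B n (i + 1)) = hf n (B n (i + 1)) := hoff _ (B_not_mem _ _)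
  set u1 := uu n f i with hu1
  set u2 := uu n f (i + 2) with hu2
  have hu1b : 0 ≤ u1 ∧ u1 ≤ M := hcl _
  have hu2b : 0 ≤ u2 ∧ u2 ≤ M := hcl _
  have hn : (0:ℝ) < n + 1 := by positivity
  set s : ℝ := 1 / (n + 1) with hs
  have hspos : 0 < s := by positivity
  have e1 : relax (Gr n) p f (X n (i + 1)) (X n (i + 1)) - f (X n i) = s + z - u1 := by
    rw [hz, hu1, uu, hf_X _ _ (by omega), hf_X _ _ (by omega), hs]
    push_cast; ring
  have e2 : relax (Gr n) p f (X n (i + 1)) (X n (i + 1)) - f (X n (i + 2)) = -(s - z + u2) := by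
    rw [hz, hu2, uu, hf_X _ _ (by omega), hf_X _ _ (by omega), hs]
    push_cast; ring
  have e3 : relax (Gr n) p f (X n (i + 1)) (X n (i + 1)) - f (B n (i + 1)) = z := by
    rw [hz, hB, hf_B _ _ (by omega), hf_X _ _ (by omega)]
  rw [e1, e2, e3, phi_neg] at hstat
  have hz0 : 0 ≤ z := hb.1
  have hzM : z ≤ M := hb.2.1
  have hMs' : M ≤ s / 2 := by
    rw [hs, div_div, le_div_iff₀ (by positivity)]
    linarith
  set a := s + z - u1 with ha
  set b := s - z + u2 with hb'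
  have ha0 : s / 2 ≤ a := by linarith
  have hapos : 0 < a := by linarith
  have hbpos : 0 < b := by linarith
  have hkey : b ^ (p - 1) = a ^ (p - 1) + z ^ (p - 1) := by
    rw [phi_of_pos hapos, phi_of_pos hbpos, phi_of_nonneg hp1 hz0] at hstat
    linarith
  have hκ0 : 0 ≤ (2 * ((n : ℝ) + 1) * M) ^ (p - 2) := by positivity
  have h15 : b - a = u1 + u2 - 2 * z := by rw [ha, hb']; ring
  by_cases hba : b ≤ a
  · have h1 : u1 + u2 ≤ 2 * z := by linarith
    nlinarith [mul_nonneg hκ0 hz0]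
  · push Not at hba
    have htan := tangent_le (p := p - 1) (by linarith) b a
    rw [phi_of_pos hapos, abs_of_pos hapos, abs_of_pos hbpos, hkey] at htan
    have e4 : p - 1 - 1 = p - 2 := by ring
    rw [e4] at htan
    have h5 : a ^ (p - 2) * (b - a) ≤ z ^ (p - 1) := by
      have h6 : 0 ≤ a ^ (p - 2) * (b - a) := by
        have := Real.rpow_pos_of_pos hapos (p - 2)
        have : 0 ≤ b - a := by linarith
        positivity
      have : (p - 1) * (a ^ (p - 2) * (b - a)) ≤ z ^ (p - 1) := by linarith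
      nlinarith
    have h7 : (s / 2) ^ (p - 2) * (b - a) ≤ z * M ^ (p - 2) := by
      have h8 : (s / 2) ^ (p - 2) ≤ a ^ (p - 2) :=
        Real.rpow_le_rpow (by linarith) ha0 (by linarith)
      have h9 : z ^ (p - 1) ≤ z * M ^ (p - 2) := by
        have h9a : z ^ (p - 1) = z * z ^ (p - 2) := by
          rcases hz0.eq_or_lt with h0 | h0
          · rw [← h0, Real.zero_rpow (by linarith), zero_mul]
          · rw [← Real.rpow_one_add' hz0 (by linarith)]
            congr 1; ring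
        rw [h9a]
        exact mul_le_mul_of_nonneg_left (Real.rpow_le_rpow hz0 hzM (by linarith)) hz0
      have h10 : 0 ≤ b - a := by linarith
      nlinarith
    have h11 : b - a ≤ z * (2 * (n + 1) * M) ^ (p - 2) := by
      have h12 : (0:ℝ) < (2 * (n + 1)) ^ (p - 2) := by positivity
      have h13 : (2 * ((n:ℝ) + 1)) ^ (p - 2) * (s / 2) ^ (p - 2) = 1 := by
        rw [← Real.mul_rpow (by positivity) (by positivity)]
        have : 2 * ((n:ℝ) + 1) * (s / 2) = 1 := by rw [hs]; field_simp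
        rw [this, Real.one_rpow]
      rw [Real.mul_rpow (by positivity) hM.le]
      calc b - a = (2 * ((n:ℝ) + 1)) ^ (p - 2) * ((s / 2) ^ (p - 2) * (b - a)) := by
            rw [← mul_assoc, h13, one_mul]
        _ ≤ (2 * ((n:ℝ) + 1)) ^ (p - 2) * (z * M ^ (p - 2)) :=
            mul_le_mul_of_nonneg_left h7 h12.le
        _ = z * ((2 * ((n:ℝ) + 1)) ^ (p - 2) * M ^ (p - 2)) := by ring
    linarith

/-- the sine profile -/
noncomputable def sn (n i : ℕ) : ℝ := Real.sin (Real.pi / (n + 1) * i)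

/-- `cos (π / (n + 1))` -/
noncomputable def cs (n : ℕ) : ℝ := Real.cos (Real.pi / (n + 1))

lemma sn_zero (n : ℕ) : sn n 0 = 0 := by simp [sn]

lemma sn_last (n : ℕ) : sn n (n + 1) = 0 := by
  unfold sn
  have : Real.pi / ((n : ℝ) + 1) * ((n + 1 : ℕ) : ℝ) = Real.pi := by
    push_cast
    field_simp
  rw [this, Real.sin_pi]

lemma sn_pos {n i : ℕ} (hi : i < n) : 0 < sn n (i + 1) := by
  unfold sn
  have hn : (0 : ℝ) < (n : ℝ) + 1 := by positivity
  have hi' : ((i + 1 : ℕ) : ℝ) < (n : ℝ) + 1 := by exact_mod_cast Nat.succ_lt_succ hi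
  apply Real.sin_pos_of_pos_of_lt_pi
  · have := Real.pi_pos
    positivity
  · rw [div_mul_eq_mul_div, div_lt_iff₀ hn]
    exact mul_lt_mul_of_pos_left hi' Real.pi_pos

lemma sn_nonneg {n i : ℕ} (hi : i ≤ n + 1) : 0 ≤ sn n i := by
  rcases Nat.eq_zero_or_pos i with rfl | h0
  · rw [sn_zero]
  · rcases hi.eq_or_lt with rfl | h1
    · rw [sn_last]
    · obtain ⟨j, rfl⟩ : ∃ j, i = j + 1 := ⟨i - 1, by omega⟩
      exact (sn_pos (by omega)).le

lemma sn_add (n i : ℕ) : sn n i + sn n (i + 2) = 2 * cs n * sn n (i + 1) := by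
  unfold sn cs
  set θ := Real.pi / ((n : ℝ) + 1) with hθ
  have e1 : θ * (i : ℝ) = θ * ((i + 1 : ℕ) : ℝ) - θ := by push_cast; ring
  have e2 : θ * ((i + 2 : ℕ) : ℝ) = θ * ((i + 1 : ℕ) : ℝ) + θ := by push_cast; ring
  rw [e1, e2, Real.sin_sub, Real.sin_add]
  ring

lemma cs_ge {n : ℕ} (hn : 2 ≤ n) : 1 / 2 ≤ cs n := by
  unfold cs
  rw [← Real.cos_pi_div_three]
  have hn' : (2 : ℝ) ≤ n := by exact_mod_cast hn
  have hpi := Real.pi_pos
  apply Real.cos_le_cos_of_nonneg_of_le_pi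
  · positivity
  · linarith
  · gcongr
    linarith

lemma cs_ge' (n : ℕ) : 1 - 5 / ((n : ℝ) + 1) ^ 2 ≤ cs n := by
  unfold cs
  have h := Real.one_sub_sq_div_two_le_cos (x := Real.pi / ((n : ℝ) + 1))
  have hpi : Real.pi ^ 2 ≤ 10 := by
    have h1 := Real.pi_lt_d2
    have h2 := Real.pi_pos
    nlinarith
  have h3 : (Real.pi / ((n : ℝ) + 1)) ^ 2 / 2 ≤ 5 / ((n : ℝ) + 1) ^ 2 := by
    rw [div_pow, div_div, div_le_div_iff₀ (by positivity) (by positivity)]
    nlinarith [sq_nonneg ((n : ℝ) + 1)]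
  linarith

lemma titu {a b u v : ℝ} (hu : 0 ≤ u) (hv : 0 ≤ v) (h1 : u = 0 → a = 0) (h2 : v = 0 → b = 0) :
    (a + b) ^ 2 / (u + v) ≤ a ^ 2 / u + b ^ 2 / v := by
  rcases hu.eq_or_lt with h | h
  · rw [h1 h.symm, ← h]; simp
  · rcases hv.eq_or_lt with h' | h'
    · rw [h2 h'.symm, ← h']; simp
    · rw [div_add_div _ _ h.ne' h'.ne', div_le_div_iff₀ (by positivity) (by positivity)]
      nlinarith [sq_nonneg (a * v - b * u), mul_pos h h']

/-- `Y f = ∑ s_i³ / u_i`. -/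
noncomputable def YR (n : ℕ) (f : Vx n → ℝ) : ℝ :=
  ∑ i ∈ Finset.range n, sn n (i + 1) ^ 3 / uu n f (i + 1)

lemma YR_relax (n : ℕ) {p : ℝ} (f : Vx n → ℝ) (i : ℕ) (hi : i < n) :
    YR n (relax (Gr n) p f (X n (i + 1))) = YR n f +
      sn n (i + 1) ^ 3 / (relax (Gr n) p f (X n (i + 1)) (X n (i + 1)) - hf n (X n (i + 1)))
        - sn n (i + 1) ^ 3 / uu n f (i + 1) := by
  unfold YR
  rw [← Finset.add_sum_erase _ _ (Finset.mem_range.mpr hi),
    ← Finset.add_sum_erase (Finset.range n) (fun i => sn n (i + 1) ^ 3 / uu n f (i + 1))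
      (Finset.mem_range.mpr hi)]
  have : ∑ x ∈ (Finset.range n).erase i, sn n (x + 1) ^ 3 /
      uu n (relax (Gr n) p f (X n (i + 1))) (x + 1) =
      ∑ x ∈ (Finset.range n).erase i, sn n (x + 1) ^ 3 / uu n f (x + 1) := by
    refine Finset.sum_congr rfl (fun j hj => ?_)
    rw [Finset.mem_erase, Finset.mem_range] at hj
    unfold uu
    rw [relax_of_ne]
    intro h
    have := X_inj (by omega) (by omega) h
    omega
  rw [this]
  unfold uu
  ring

/-- The invariant class. -/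
def KK (n : ℕ) (M : ℝ) (f : Vx n → ℝ) : Prop := InClass n M f ∧ ∀ i < n, 0 < uu n f (i + 1)

lemma uu_zero {n : ℕ} {M : ℝ} {f : Vx n → ℝ} (h : InClass n M f) : uu n f 0 = 0 := by
  rw [uu, h.2 _ (X_not_mem (Or.inl rfl)), sub_self]

lemma uu_last {n : ℕ} {M : ℝ} {f : Vx n → ℝ} (h : InClass n M f) : uu n f (n + 1) = 0 := by
  rw [uu, h.2 _ (X_not_mem (Or.inr rfl)), sub_self]

lemma nbr_pos {n : ℕ} (hn : 2 ≤ n) {M : ℝ} {f : Vx n → ℝ} (h : KK n M f) {i : ℕ} (hi : i < n) :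
    0 < uu n f i + uu n f (i + 2) := by
  have h0 : 0 ≤ uu n f i := (h.1.1 _).1
  have h2 : 0 ≤ uu n f (i + 2) := (h.1.1 _).1
  rcases Nat.eq_zero_or_pos i with rfl | h1
  · have := h.2 1 (by omega)
    have e : (1 : ℕ) + 1 = 0 + 2 := rfl
    rw [e] at this
    linarith
  · obtain ⟨j, rfl⟩ : ∃ j, i = j + 1 := ⟨i - 1, by omega⟩
    have := h.2 j (by omega)
    linarith

lemma z_pos {n : ℕ} (hn : 2 ≤ n) {p : ℝ} (hp : 2 < p) {M : ℝ} (hM : 0 < M)
    (hMs : M * (2 * (n + 1)) ≤ 1) {f : Vx n → ℝ} (h : KK n M f) {i : ℕ} (hi : i < n) :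
    0 < relax (Gr n) p f (X n (i + 1)) (X n (i + 1)) - hf n (X n (i + 1)) := by
  have h1 := relax_mul n hp M hM f h.1 hMs i hi
  have h2 := nbr_pos hn h hi
  have h3 : 0 < 2 + (2 * ((n : ℝ) + 1) * M) ^ (p - 2) := by positivity
  by_contra hc
  push Not at hc
  nlinarith

lemma KK_relax {n : ℕ} (hn : 2 ≤ n) {p : ℝ} (hp : 2 < p) {M : ℝ} (hM : 0 < M)
    (hMs : M * (2 * (n + 1)) ≤ 1) (f : Vx n → ℝ) (h : KK n M f) (v : Vx n) (hv : v ∈ Int n) :
    KK n M (relax (Gr n) p f v) := by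
  refine ⟨inClass_relax n hp M hM.le f h.1 v hv, fun i hi => ?_⟩
  obtain ⟨j, hj, rfl⟩ := mem_Int.mp hv
  by_cases hij : i = j
  · subst hij
    exact z_pos hn hp hM hMs h hi
  · unfold uu
    rw [relax_of_ne]
    · exact h.2 i hi
    · intro h'
      have := X_inj (by omega) (by omega) h'
      omega

/-- One-step estimate. -/
lemma drift (n : ℕ) (hn : 2 ≤ n) {p : ℝ} (hp : 2 < p) (M : ℝ) (hM : 0 < M)
    (hMs : M * (2 * (n + 1)) ≤ 1) (f : Vx n → ℝ) (h : KK n M f) :
    ∑ v : Int n, YR n (relax (Gr n) p f v) ≤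
      ((n : ℝ) + ((2 + (2 * ((n : ℝ) + 1) * M) ^ (p - 2)) / (2 * cs n) - 1)) * YR n f := by
  rw [sum_Int n (fun v => YR n (relax (Gr n) p f v))]
  set κ := (2 * ((n : ℝ) + 1) * M) ^ (p - 2) with hκdef
  have hκ0 : 0 ≤ κ := by rw [hκdef]; positivity
  have hc : 0 < cs n := by linarith [cs_ge hn]
  set u := uu n f with hu
  have hu0 : u 0 = 0 := uu_zero h.1
  have hun : u (n + 1) = 0 := uu_last h.1
  have hunn : ∀ i, 0 ≤ u i := fun i => (h.1.1 _).1
  have h1 : ∀ i ∈ Finset.range n, YR n (relax (Gr n) p f (X n (i + 1))) ≤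
      YR n f - sn n (i + 1) ^ 3 / u (i + 1) + (2 + κ) / (2 * cs n) ^ 2 *
        (sn n (i + 1) * (sn n i ^ 2 / u i + sn n (i + 2) ^ 2 / u (i + 2))) := by
    intro i hi
    rw [Finset.mem_range] at hi
    rw [YR_relax n f i hi]
    have hz := z_pos hn hp hM hMs h hi
    have hm := relax_mul n hp M hM f h.1 hMs i hi
    have hs := sn_pos hi
    have hnb := nbr_pos hn h hi
    set z := relax (Gr n) p f (X n (i + 1)) (X n (i + 1)) - hf n (X n (i + 1)) with hzdef
    rw [← hκdef, ← hu] at hm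
    rw [← hu] at hnb
    have h2 : sn n (i + 1) ^ 3 / z ≤ (2 + κ) * sn n (i + 1) ^ 3 / (u i + u (i + 2)) := by
      rw [div_le_div_iff₀ hz hnb]
      have : 0 < sn n (i + 1) ^ 3 := by positivity
      nlinarith
    have h3 : (sn n i + sn n (i + 2)) ^ 2 / (u i + u (i + 2)) ≤
        sn n i ^ 2 / u i + sn n (i + 2) ^ 2 / u (i + 2) := by
      apply titu (hunn _) (hunn _)
      · intro h0
        rcases Nat.eq_zero_or_pos i with rfl | hi0
        · exact sn_zero n
        · obtain ⟨j, rfl⟩ : ∃ j, i = j + 1 := ⟨i - 1, by omega⟩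
          exact absurd h0 (h.2 j (by omega)).ne'
      · intro h0
        rcases (show i + 2 ≤ n + 1 by omega).eq_or_lt with hin | hin
        · have : i + 2 = n + 1 := hin
          rw [this]; exact sn_last n
        · exact absurd h0 (h.2 (i + 1) (by omega)).ne'
    have h4 : (2 + κ) * sn n (i + 1) ^ 3 / (u i + u (i + 2)) =
        (2 + κ) / (2 * cs n) ^ 2 * (sn n (i + 1) *
          ((sn n i + sn n (i + 2)) ^ 2 / (u i + u (i + 2)))) := by
      rw [sn_add]
      field_simp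
    have h5 : (2 + κ) / (2 * cs n) ^ 2 * (sn n (i + 1) *
        ((sn n i + sn n (i + 2)) ^ 2 / (u i + u (i + 2)))) ≤
        (2 + κ) / (2 * cs n) ^ 2 * (sn n (i + 1) *
        (sn n i ^ 2 / u i + sn n (i + 2) ^ 2 / u (i + 2))) := by
      gcongr
    rw [h4] at h2
    linarith
  refine (Finset.sum_le_sum h1).trans (le_of_eq ?_)
  rw [Finset.sum_add_distrib, Finset.sum_sub_distrib, Finset.sum_const, Finset.card_range,
    nsmul_eq_mul, ← Finset.mul_sum,
    sum_by_parts (fun i => sn n i ^ 2 / u i) (sn n) n]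
  simp only [sn_zero, sn_last]
  have h6 : ∑ i ∈ Finset.range n, (sn n i + sn n (i + 2)) * (sn n (i + 1) ^ 2 / u (i + 1)) =
      2 * cs n * YR n f := by
    unfold YR
    rw [Finset.mul_sum]
    refine Finset.sum_congr rfl (fun i _ => ?_)
    rw [sn_add, ← hu]
    ring
  have h7 : ∑ i ∈ Finset.range n, sn n (i + 1) ^ 3 / u (i + 1) = YR n f := rfl
  rw [h6, h7]
  field_simp
  ring

/-- **Multiplicative drift bound.** -/
lemma sum_state_le {V : Type} [Fintype V] (G : SimpleGraph V) (p : ℝ) (I : Finset V)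
    (K : (V → ℝ) → Prop) (Y : (V → ℝ) → ℝ) (A : ℝ) (hA : 0 ≤ A) (f₀ : V → ℝ) (h0 : K f₀)
    (hinv : ∀ f, K f → ∀ v ∈ I, K (relax G p f v))
    (hdrift : ∀ f, K f → ∑ v : I, Y (relax G p f v) ≤ A * Y f) (t : ℕ) :
    (∀ a : Fin t → I, K (state G p f₀ t (fun i => a i))) ∧
    ∑ a : Fin t → I, Y (state G p f₀ t (fun i => a i)) ≤ A ^ t * Y f₀ := by
  induction t with
  | zero => simp [state, h0]
  | succ t ih =>
    obtain ⟨ihK, ihY⟩ := ih
    refine ⟨fun a => ?_, ?_⟩
    · simp only [state]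
      exact hinv _ (ihK (fun i => a i.castSucc)) _ (a (Fin.last t)).2
    · rw [sum_snoc]
      have h1 : ∀ a : Fin t → I,
          ∑ b : I, Y (state G p f₀ (t + 1) (fun i => ((Fin.snoc (α := fun _ => I) a b) i : I))) ≤
          A * Y (state G p f₀ t (fun i => a i)) := by
        intro a
        refine (le_of_eq ?_).trans (hdrift _ (ihK a))
        refine Finset.sum_congr rfl (fun b _ => ?_)
        simp only [state, Fin.snoc_castSucc, Fin.snoc_last]
      refine (Finset.sum_le_sum (fun a _ => h1 a)).trans ?_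
      rw [← Finset.mul_sum, pow_succ]
      have := mul_le_mul_of_nonneg_left ihY hA
      linarith

end KS6_84.Lp
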